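import Mathlib
import Pool.Agent.Lib_helper38.XA.Defs
set_option autoImplicit false

namespace Pool.Agent.XA

open Finset Filter Pool.Agent.XO

variable {V : Type} [AddCommGroup V] [Fintype V] [DecidableEq V]
variable {W : Type} [AddCommGroup W] [Fintype W] [DecidableEq W]

theorem k3b_char (c c' : V) : ∑ ξ : AddChar V ℂ, ξ c * (starRingEnd ℂ) (ξ c') =
    if c = c' then (Fintype.card V : ℂ) else 0 := by
  have h : ∀ ξ : AddChar V ℂ, ξ c * (starRingEnd ℂ) (ξ c') = ξ (c - c') := by
    intro ξ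
    rw [sub_eq_add_neg, AddChar.map_add_eq_mul, AddChar.map_neg_eq_conj]
  simp_rw [h]
  rw [AddChar.sum_apply_eq_ite]
  simp [sub_eq_zero]

theorem k3b_sq {F : V → ℂ} (π : V →+ W) (q : W) :
    ∑ ξ : AddChar V ℂ, ‖push π F ξ q‖ ^ 2 =
      Fintype.card V * ∑ c, if π c = q then ‖F c‖ ^ 2 else 0 := by
  have h1 : ((∑ ξ : AddChar V ℂ, ‖push π F ξ q‖ ^ 2 : ℝ) : ℂ) =
      ((Fintype.card V * ∑ c, (if π c = q then ‖F c‖ ^ 2 else 0) : ℝ) : ℂ) := by
    push_cast
    have h2 : ∀ ξ : AddChar V ℂ, ((‖push π F ξ q‖ : ℂ)) ^ 2 =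
        ∑ c, ∑ c', (if π c = q then F c else 0) * (starRingEnd ℂ) (if π c' = q then F c' else 0) *
          (ξ c * (starRingEnd ℂ) (ξ c')) := by
      intro ξ
      rw [← Complex.mul_conj', push, map_sum, sum_mul_sum]
      refine sum_congr rfl fun c _ => sum_congr rfl fun c' _ => ?_
      split_ifs <;> simp
      ring
    simp_rw [h2]
    rw [sum_comm]
    have h3 : ∀ c, ∑ ξ : AddChar V ℂ, ∑ c', (if π c = q then F c else 0) *
        (starRingEnd ℂ) (if π c' = q then F c' else 0) * (ξ c * (starRingEnd ℂ) (ξ c')) =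
        (Fintype.card V : ℂ) * (if π c = q then (‖F c‖ : ℂ) ^ 2 else 0) := by
      intro c
      rw [sum_comm]
      simp_rw [← mul_sum, k3b_char]
      simp only [mul_ite, mul_zero, sum_ite_eq, mem_univ, if_true]
      split_ifs with h
      · rw [Complex.mul_conj']
        ring
      · simp
    simp_rw [h3]
    rw [← mul_sum]
    congr 1
    refine sum_congr rfl fun c _ => ?_
    split_ifs <;> simp
  exact_mod_cast h1

/-- one class: the mean over all points -/
theorem push_avg {F : V → ℂ} (π : V →+ W) (q : W) :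
    (∑ ξ : AddChar V ℂ, ‖push π F ξ q‖) / Fintype.card V ≤
      Real.sqrt (∑ c, if π c = q then ‖F c‖ ^ 2 else 0) := by
  have hcard : Fintype.card (AddChar V ℂ) = Fintype.card V := AddChar.card_eq
  have hV : (0 : ℝ) < Fintype.card V := by exact_mod_cast Fintype.card_pos
  apply Real.le_sqrt_of_sq_le
  rw [div_pow, div_le_iff₀ (by positivity)]
  have h := sq_sum_le_card_mul_sum_sq (s := (univ : Finset (AddChar V ℂ)))
    (f := fun ξ => ‖push π F ξ q‖)
  rw [k3b_sq, card_univ, hcard] at h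
  refine h.trans (le_of_eq ?_)
  ring

end Pool.Agent.XA
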